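import Mathlib
import Pool.Agent.Q149.UnionLow

/-!
# MP_841146_co: the maximum number of intersections of cross-Sperner families, odd `n`

`m (2 d + 1) = 2 ^ (2 d + 1) - 2 ^ (d + 1) - 2 ^ d + 1` for every `d`.
-/

set_option autoImplicit false

namespace Pool.Agent.Results.MP_841146_co.OddExact

open Finset
open scoped FinsetFamily

/-- `A, B ⊆ 2^[n]` are cross-Sperner: no member of one family contains a member of the other. -/
def CrossSperner {n : ℕ} (A B : Finset (Finset (Fin n))) : Prop :=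
  ∀ a ∈ A, ∀ b ∈ B, ¬ a ⊆ b ∧ ¬ b ⊆ a

/-- the family `I(A, B) = {a ∩ b : a ∈ A, b ∈ B}` -/
def inters {n : ℕ} (A B : Finset (Finset (Fin n))) : Finset (Finset (Fin n)) :=
  Finset.image₂ (fun a b => a ∩ b) A B

open Classical in
/-- `m(n)`: the largest size of `I(A, B)` over all cross-Sperner pairs in `2^[n]` -/
noncomputable def m (n : ℕ) : ℕ :=
  (Finset.univ.filter fun P : Finset (Finset (Fin n)) × Finset (Finset (Fin n)) =>
    CrossSperner P.1 P.2).sup fun P => (inters P.1 P.2).card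

section aux

variable {n : ℕ}

/-- the lower set generated by a family -/
def low (A : Finset (Finset (Fin n))) : Finset (Finset (Fin n)) :=
  univ.filter fun X => ∃ a ∈ A, X ⊆ a

lemma mem_low {A : Finset (Finset (Fin n))} {X : Finset (Fin n)} :
    X ∈ low A ↔ ∃ a ∈ A, X ⊆ a := by
  simp [low]

lemma low_lower (A : Finset (Finset (Fin n))) : IsLowerSet (low A : Set (Finset (Fin n))) := by
  intro X Y hYX hX
  rw [mem_coe, mem_low] at hX ⊢
  obtain ⟨a, ha, h⟩ := hX
  exact ⟨a, ha, subset_trans hYX h⟩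

lemma sub_low (A : Finset (Finset (Fin n))) : A ⊆ low A := fun a ha => mem_low.mpr ⟨a, ha, subset_rfl⟩

/-- the structure of the complementary families -/
lemma structure_of {A B : Finset (Finset (Fin n))} (h : CrossSperner A B) (hA : A.Nonempty)
    (hB : B.Nonempty) : ∃ D E : Finset (Finset (Fin n)), IsLowerSet (D : Set (Finset (Fin n))) ∧
      IsLowerSet (E : Set (Finset (Fin n))) ∧ (D ∩ E).Nonempty ∧
      #(inters A B) ≤ #(D \ E) * #(E \ D) ∧ #(inters A B) + #(D ∪ E) ≤ #(D ⊻ E) := by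
  have hI : inters A B = A ⊼ B := rfl
  have hcard : #(inters A B) = #(Aᶜˢ ⊻ Bᶜˢ) := by
    rw [hI, ← compls_infs, card_compls]
  have hcs : ∀ a ∈ Aᶜˢ, ∀ b ∈ Bᶜˢ, ¬ a ⊆ b ∧ ¬ b ⊆ a := by
    intro a ha b hb
    rw [mem_compls] at ha hb
    have := h _ ha _ hb
    rw [compl_subset_compl, compl_subset_compl] at this
    exact ⟨this.2, this.1⟩
  refine ⟨low Aᶜˢ, low Bᶜˢ, low_lower _, low_lower _, ?_, ?_, ?_⟩
  · obtain ⟨a, ha⟩ := hA
    obtain ⟨b, hb⟩ := hB
    refine ⟨∅, mem_inter.mpr ⟨mem_low.mpr ⟨aᶜ, ?_, empty_subset _⟩,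
      mem_low.mpr ⟨bᶜ, ?_, empty_subset _⟩⟩⟩
    · rw [mem_compls, compl_compl]; exact ha
    · rw [mem_compls, compl_compl]; exact hb
  · rw [hcard]
    refine (card_sups_le _ _).trans (Nat.mul_le_mul (card_le_card ?_) (card_le_card ?_))
    · intro a ha
      rw [mem_sdiff]
      refine ⟨sub_low _ ha, fun h1 => ?_⟩
      obtain ⟨b, hb, hab⟩ := mem_low.mp h1
      exact (hcs a ha b hb).1 hab
    · intro b hb
      rw [mem_sdiff]
      refine ⟨sub_low _ hb, fun h1 => ?_⟩
      obtain ⟨a, ha, hab⟩ := mem_low.mp h1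
      exact (hcs a ha b hb).2 hab
  · rw [hcard, ← card_union_of_disjoint]
    · apply card_le_card
      apply union_subset
      · exact sups_subset (sub_low _) (sub_low _)
      · apply union_subset
        · intro X hX
          rw [mem_sups]
          obtain ⟨b, hb⟩ := hB
          exact ⟨X, hX, ∅, mem_low.mpr ⟨bᶜ, by rw [mem_compls, compl_compl]; exact hb,
            empty_subset _⟩, by simp⟩
        · intro X hX
          rw [mem_sups]
          obtain ⟨a, ha⟩ := hA
          exact ⟨∅, mem_low.mpr ⟨aᶜ, by rw [mem_compls, compl_compl]; exact ha,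
            empty_subset _⟩, X, hX, by simp⟩
    · rw [disjoint_left]
      intro X hX hX'
      obtain ⟨P, hP, Q, hQ, rfl⟩ := mem_sups.mp hX
      rcases mem_union.mp hX' with h1 | h1
      · obtain ⟨a, ha, h2⟩ := mem_low.mp h1
        exact (hcs a ha Q hQ).2 (subset_trans subset_union_right h2)
      · obtain ⟨b, hb, h2⟩ := mem_low.mp h1
        exact (hcs P hP b hb).1 (subset_trans subset_union_left h2)

end aux

/-- the upper bound -/
lemma upper (d : ℕ) {A B : Finset (Finset (Fin (2 * d + 1)))} (h : CrossSperner A B) :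
    (#(inters A B) : ℤ) ≤ 2 ^ (2 * d + 1) - 2 ^ (d + 1) - 2 ^ d + 1 := by
  have hN : (0 : ℤ) < 2 ^ d := by positivity
  have h2n : (2 : ℤ) ^ (2 * d + 1) = 2 * 2 ^ d * 2 ^ d := by
    rw [pow_succ, two_mul, pow_add]; ring
  have h2d : (2 : ℤ) ^ (d + 1) = 2 * 2 ^ d := by rw [pow_succ]; ring
  rw [h2n, h2d]
  set N : ℤ := 2 ^ d with hNdef
  rcases A.eq_empty_or_nonempty with hA | hA
  · subst hA
    have : inters (∅ : Finset (Finset (Fin (2 * d + 1)))) B = ∅ := by simp [inters]
    rw [this]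
    simp only [card_empty, Nat.cast_zero]
    nlinarith
  rcases B.eq_empty_or_nonempty with hB | hB
  · subst hB
    have : inters A (∅ : Finset (Finset (Fin (2 * d + 1)))) = ∅ := by simp [inters]
    rw [this]
    simp only [card_empty, Nat.cast_zero]
    nlinarith
  obtain ⟨D, E, hD, hE, hc, h1, h2⟩ := structure_of h hA hB
  by_contra hcon
  push Not at hcon
  have hc1 : 1 ≤ #(D ∩ E) := card_pos.mpr hc
  have cD : #(D \ E) + #(D ∩ E) = #D := card_sdiff_add_card_inter D E
  have cE : #(E \ D) + #(D ∩ E) = #E := by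
    rw [inter_comm]; exact card_sdiff_add_card_inter E D
  have cU : #(D ∪ E) = #(D \ E) + #(E \ D) + #(D ∩ E) := by
    have := card_union_add_card_inter D E
    omega
  have hV : #(D ⊻ E) ≤ 2 ^ (2 * d + 1) := by
    have := Pool.Agent.Q149.UnionLow.card_le_pow (s := univ) (D := D ⊻ E) (fun t _ => subset_univ t)
    simpa using this
  have hV' : (#(D ⊻ E) : ℤ) ≤ 2 * N * N := by rw [← h2n]; exact_mod_cast hV
  zify at hc1 cD cE cU h1 h2
  set a : ℤ := (#(D \ E) : ℤ) with ha
  set b : ℤ := (#(E \ D) : ℤ) with hb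
  set c : ℤ := (#(D ∩ E) : ℤ) with hcc
  set u : ℤ := (#(inters A B) : ℤ) with hu
  have ha0 : 0 ≤ a := by positivity
  have hb0 : 0 ≤ b := by positivity
  have s1 : 2 * N * N - 3 * N + 2 ≤ u := by linarith
  have s2 : a + b + c ≤ 3 * N - 2 := by linarith
  have s3 : N ≤ b := by
    by_contra hlt
    push Not at hlt
    have hb1 : b ≤ N - 1 := by linarith
    have q1 : a * b ≤ (3 * N - 3 - b) * b := by
      apply mul_le_mul_of_nonneg_right _ hb0
      linarith
    have q2 : 0 ≤ (N - 1 - b) * (2 * N - 2 - b) := by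
      apply mul_nonneg (by linarith)
      nlinarith
    nlinarith
  have s4 : N ≤ a := by
    by_contra hlt
    push Not at hlt
    have hb1 : a ≤ N - 1 := by linarith
    have q1 : a * b ≤ a * (3 * N - 3 - a) := by
      apply mul_le_mul_of_nonneg_left _ ha0
      linarith
    have q2 : 0 ≤ (N - 1 - a) * (2 * N - 2 - a) := by
      apply mul_nonneg (by linarith)
      nlinarith
    nlinarith
  have hDle : #D ≤ 2 ^ (d + 1) := by
    zify
    rw [h2d]
    linarith
  have hEle : #E ≤ 2 ^ (d + 1) := by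
    zify
    rw [h2d]
    linarith
  have hDge : 2 ^ (d + 1) ≤ 2 * #D := by
    zify
    rw [h2d]
    linarith
  have key := Pool.Agent.Q149.UnionLow.card_not_union univ D E hD hE (fun t _ => subset_univ t)
    (fun t _ => subset_univ t) (d + 1) (d + 1) (by simp; ring) hDle hEle (Or.inl hDge)
  simp only [card_univ, Fintype.card_fin] at key
  have key' : ((2 : ℤ) ^ (d + 1) - #D) * (2 ^ (d + 1) - #E) ≤ 2 ^ (2 * d + 1) - #(D ⊻ E) := by
    exact_mod_cast key
  rw [h2d, h2n, ← cD, ← cE] at key'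
  have t1 : (1 : ℤ) ≤ 2 * N - (a + c) - 1 := by linarith
  have t2 : (1 : ℤ) ≤ 2 * N - (b + c) - 1 := by linarith
  nlinarith [mul_nonneg (show (0 : ℤ) ≤ 2 * N - (a + c) - 1 by linarith)
    (show (0 : ℤ) ≤ 2 * N - (b + c) - 1 by linarith)]

lemma card_ssub {n : ℕ} (X : Finset (Fin n)) : #X.ssubsets = 2 ^ #X - 1 := by
  rw [ssubsets, card_erase_of_mem (mem_powerset_self X), card_powerset]

/-- the construction: `X ∪ Y = [n]`, `A = {S ∪ Y : S ⊊ X}`, `B = {X ∪ T : T ⊊ Y}` -/
lemma lower {n : ℕ} (X : Finset (Fin n)) : ∃ A B : Finset (Finset (Fin n)), CrossSperner A B ∧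
    (2 ^ #X - 1) * (2 ^ #Xᶜ - 1) ≤ #(inters A B) := by
  refine ⟨X.ssubsets.image (fun S => S ∪ Xᶜ), Xᶜ.ssubsets.image (fun T => X ∪ T), ?_, ?_⟩
  · intro a ha b hb
    obtain ⟨S, hS, rfl⟩ := mem_image.mp ha
    obtain ⟨T, hT, rfl⟩ := mem_image.mp hb
    rw [mem_ssubsets] at hS hT
    constructor
    · intro h
      apply hT.2
      intro y hy
      have := h (mem_union_right S hy)
      rcases mem_union.mp this with h1 | h1
      · exact absurd h1 (mem_compl.mp hy)
      · exact h1
    · intro h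
      apply hS.2
      intro y hy
      have := h (mem_union_left T hy)
      rcases mem_union.mp this with h1 | h1
      · exact h1
      · exact absurd hy (mem_compl.mp h1)
  · rw [← card_ssub, ← card_ssub, ← card_product]
    apply card_le_card_of_injOn (fun P => P.1 ∪ P.2)
    · intro P hP
      rw [mem_coe, mem_product, mem_ssubsets, mem_ssubsets] at hP
      rw [mem_coe]
      unfold inters
      rw [mem_image₂]
      refine ⟨P.1 ∪ Xᶜ, mem_image_of_mem _ (mem_ssubsets.mpr hP.1), X ∪ P.2,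
        mem_image_of_mem _ (mem_ssubsets.mpr hP.2), ?_⟩
      ext y
      have h1 : y ∈ P.1 → y ∈ X := fun h => hP.1.1 h
      have h2 : y ∈ P.2 → y ∉ X := fun h => mem_compl.mp (hP.2.1 h)
      simp only [mem_inter, mem_union, mem_compl]
      tauto
    · intro P hP Q hQ hPQ
      rw [mem_coe, mem_product, mem_ssubsets, mem_ssubsets] at hP hQ
      have key : ∀ y, (y ∈ P.1 ∨ y ∈ P.2) ↔ (y ∈ Q.1 ∨ y ∈ Q.2) := by
        intro y
        rw [← mem_union, ← mem_union]
        exact Finset.ext_iff.mp hPQ y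
      have h1 : ∀ y, y ∈ P.1 → y ∈ X := fun y h => hP.1.1 h
      have h2 : ∀ y, y ∈ P.2 → y ∉ X := fun y h => mem_compl.mp (hP.2.1 h)
      have h3 : ∀ y, y ∈ Q.1 → y ∈ X := fun y h => hQ.1.1 h
      have h4 : ∀ y, y ∈ Q.2 → y ∉ X := fun y h => mem_compl.mp (hQ.2.1 h)
      apply Prod.ext
      · ext y
        have := key y; have := h1 y; have := h2 y; have := h3 y; have := h4 y
        tauto
      · ext y
        have := key y; have := h1 y; have := h2 y; have := h3 y; have := h4 y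
        tauto

/-- **The conjecture holds**: for every odd `n = 2 d + 1`,
`m(n) = 2 ^ n - 2 ^ (d + 1) - 2 ^ d + 1`. -/
theorem result (d : ℕ) : (m (2 * d + 1) : ℤ) = 2 ^ (2 * d + 1) - 2 ^ (d + 1) - 2 ^ d + 1 := by
  classical
  apply le_antisymm
  · have h0 : (0 : ℤ) ≤ 2 ^ (2 * d + 1) - 2 ^ (d + 1) - 2 ^ d + 1 := by
      have hN : (0 : ℤ) < 2 ^ d := by positivity
      have h2n : (2 : ℤ) ^ (2 * d + 1) = 2 * 2 ^ d * 2 ^ d := by
        rw [pow_succ, two_mul, pow_add]; ring
      have h2d : (2 : ℤ) ^ (d + 1) = 2 * 2 ^ d := by rw [pow_succ]; ring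
      rw [h2n, h2d]
      nlinarith
    obtain ⟨K, hK⟩ := Int.eq_ofNat_of_zero_le h0
    rw [hK]
    have : m (2 * d + 1) ≤ K := by
      unfold m
      apply Finset.sup_le
      intro P hP
      have := upper d (mem_filter.mp hP).2
      rw [hK] at this
      exact_mod_cast this
    exact_mod_cast this
  · obtain ⟨X, hX⟩ : ∃ X : Finset (Fin (2 * d + 1)), #X = d := by
      obtain ⟨X, _, hX⟩ := Finset.exists_subset_card_eq (s := (univ : Finset (Fin (2 * d + 1))))
        (n := d) (by simp; omega)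
      exact ⟨X, hX⟩
    have hXc : #Xᶜ = d + 1 := by
      rw [card_compl, Fintype.card_fin, hX]; omega
    obtain ⟨A, B, h1, h2⟩ := lower X
    rw [hX, hXc] at h2
    have h3 : #(inters A B) ≤ m (2 * d + 1) := by
      unfold m
      exact Finset.le_sup (f := fun P : Finset (Finset (Fin (2 * d + 1))) ×
        Finset (Finset (Fin (2 * d + 1))) => (inters P.1 P.2).card)
        (mem_filter.mpr ⟨mem_univ (A, B), h1⟩)
    have h4 := h2.trans h3
    have p1 : 1 ≤ 2 ^ d := Nat.one_le_two_pow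
    have p2 : 1 ≤ 2 ^ (d + 1) := Nat.one_le_two_pow
    zify [p1, p2] at h4
    have h2n : (2 : ℤ) ^ (2 * d + 1) = 2 * 2 ^ d * 2 ^ d := by
      rw [pow_succ, two_mul, pow_add]; ring
    have h2d : (2 : ℤ) ^ (d + 1) = 2 * 2 ^ d := by rw [pow_succ]; ring
    rw [h2d] at h4
    rw [h2n, h2d]
    linarith

end Pool.Agent.Results.MP_841146_co.OddExact
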